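import Mathlib

/-!
# Torsion modulo the commutator subgroup of a normal subgroup with elementary abelian quotient (helper63)
-/

set_option autoImplicit false

noncomputable section

namespace Pool.Agent.V8H63.M2

open scoped commutatorElement

variable {P : Type} [Group P] (M : Subgroup P) [M.Normal]

/-- the action of `P` on the abelianization of `M` -/
def bb : P →* Monoid.End (Abelianization M) where
  toFun y := Abelianization.map (MulAut.conjNormal y : MulAut M).toMonoidHom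
  map_one' := by
    ext c
    obtain ⟨m, rfl⟩ : ∃ m : M, Abelianization.of m = c := QuotientGroup.mk_surjective c
    show Abelianization.of (MulAut.conjNormal (1 : P) m) = Abelianization.of m
    rw [map_one]
    rfl
  map_mul' x y := by
    ext c
    obtain ⟨m, rfl⟩ : ∃ m : M, Abelianization.of m = c := QuotientGroup.mk_surjective c
    show Abelianization.of (MulAut.conjNormal (x * y) m) =
      Abelianization.of (MulAut.conjNormal x (MulAut.conjNormal y m))
    rw [map_mul]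
    rfl

theorem bb_of (y : P) (m : M) :
    bb M y (Abelianization.of m) = Abelianization.of (MulAut.conjNormal y m) := rfl

theorem bb_M {y : P} (hy : y ∈ M) : bb M y = 1 := by
  ext c
  obtain ⟨m, rfl⟩ : ∃ m : M, Abelianization.of m = c := QuotientGroup.mk_surjective c
  show bb M y (Abelianization.of m) = Abelianization.of m
  rw [bb_of]
  have h : (MulAut.conjNormal y m : M) = ⟨y, hy⟩ * m * (⟨y, hy⟩ : M)⁻¹ := by
    apply Subtype.ext
    rw [MulAut.conjNormal_apply]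
    rfl
  rw [h, map_mul, map_mul, map_inv, mul_comm, inv_mul_cancel_left]

/-- the action of `P ⧸ M` on the abelianization of `M` -/
def BB : P ⧸ M →* Monoid.End (Abelianization M) :=
  QuotientGroup.lift M (bb M) (fun _ hy => bb_M M hy)

theorem BB_mk (y : P) : BB M (y : P ⧸ M) = bb M y := rfl

variable [Fintype (P ⧸ M)]

/-- weighted products -/
def W (f : P ⧸ M → ℤ) : Abelianization M →* Abelianization M where
  toFun c := ∏ q : P ⧸ M, (BB M q c) ^ (f q)
  map_one' := by simp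
  map_mul' c d := by
    rw [← Finset.prod_mul_distrib]
    refine Finset.prod_congr rfl fun q _ => ?_
    rw [map_mul, mul_zpow]

theorem W_apply (f : P ⧸ M → ℤ) (c : Abelianization M) : W M f c = ∏ q : P ⧸ M, (BB M q c) ^ (f q) := rfl

theorem W_inv (f : P ⧸ M → ℤ) (r : P ⧸ M) (hf : ∀ q, f (q * r) = f q) (c : Abelianization M) :
    W M f (BB M r c) = W M f c := by
  rw [W_apply, W_apply, ← Equiv.prod_comp (Equiv.mulRight r) (fun q => (BB M q c) ^ (f q))]
  refine Finset.prod_congr rfl fun q _ => ?_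
  rw [Equiv.coe_mulRight, hf, map_mul]
  rfl

theorem W_comm (f : P ⧸ M → ℤ) {u v : P} (hu : ∀ q, f (q * (u : P ⧸ M)) = f q)
    (hv : ∀ q, f (q * (v : P ⧸ M)) = f q) (h2 : u * u ∈ M) (hc : ⁅u, v⁆ ∈ M) :
    (W M f (Abelianization.of ⟨⁅u, v⁆, hc⟩)) ^ 2 = 1 := by
  set c : Abelianization M := Abelianization.of ⟨⁅u, v⁆, hc⟩ with hcdef
  set d : Abelianization M := Abelianization.of ⟨u * u, h2⟩ with hd
  have key : BB M (u : P ⧸ M) c * c = d * (BB M (v : P ⧸ M) d)⁻¹ := by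
    rw [BB_mk, BB_mk, hcdef, hd, bb_of, bb_of, ← map_mul, ← map_inv, ← map_mul]
    congr 1
    apply Subtype.ext
    rw [Subgroup.coe_mul, Subgroup.coe_mul, Subgroup.coe_inv, MulAut.conjNormal_apply, MulAut.conjNormal_apply]
    simp only [commutatorElement_def]
    group
  have h3 := congrArg (W M f) key
  rw [map_mul, map_mul, map_inv, W_inv M f _ hu, W_inv M f _ hv, mul_inv_cancel] at h3
  rw [pow_two]
  exact h3

theorem W_closure (f : P ⧸ M → ℤ) (Γ : Subgroup P) (hf : ∀ y ∈ Γ, ∀ q, f (q * (y : P ⧸ M)) = f q)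
    (h2 : ∀ u : P, u * u ∈ M) (hc : ∀ u v : P, ⁅u, v⁆ ∈ M) (z : P) (hz : z ∈ ⁅Γ, Γ⁆) (hzM : z ∈ M) :
    (W M f (Abelianization.of ⟨z, hzM⟩)) ^ 2 = 1 := by
  let K : Subgroup P := (((powMonoidHom 2).comp ((W M f).comp Abelianization.of)).ker).map M.subtype
  have h1 : ⁅Γ, Γ⁆ ≤ K := by
    rw [Subgroup.commutator_le]
    intro u hu v hv
    exact ⟨⟨⁅u, v⁆, hc u v⟩, W_comm M f (hf u hu) (hf v hv) (h2 u) (hc u v), rfl⟩
  obtain ⟨m, hm, hmz⟩ := h1 hz
  have h3 : m = ⟨z, hzM⟩ := Subtype.ext hmz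
  rw [← h3]
  exact hm

theorem zpow_sum' {L S : Type} [CommGroup L] (s : Finset S) (a : L) (f : S → ℤ) :
    a ^ (∑ i ∈ s, f i) = ∏ i ∈ s, a ^ (f i) := by
  classical
  induction s using Finset.induction_on with
  | empty => simp
  | insert i s hi ih => rw [Finset.sum_insert hi, Finset.prod_insert hi, zpow_add, ih]

/-- **The core.** -/
theorem core (h2 : ∀ u : P, u * u ∈ M) (hc : ∀ u v : P, ⁅u, v⁆ ∈ M) {S : Type} [Fintype S]
    (χ : S → P →* ℤˣ) (hχ : ∀ s, M ≤ (χ s).ker) (N0 : ℕ)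
    (hs1 : ∀ x ∈ M, ∑ s, ((χ s x : ℤˣ) : ℤ) = N0) (hs0 : ∀ x, x ∉ M → ∑ s, ((χ s x : ℤˣ) : ℤ) = 0)
    (z : P) (hz : z ∈ M) (hk : ∀ s, z ∈ ⁅(χ s).ker, (χ s).ker⁆) : z ^ (N0 * 2) ∈ ⁅M, M⁆ := by
  let X : S → P ⧸ M →* ℤˣ := fun s => QuotientGroup.lift M (χ s) (hχ s)
  let f : S → P ⧸ M → ℤ := fun s q => ((X s q : ℤˣ) : ℤ)
  set δ : Abelianization M := Abelianization.of ⟨z, hz⟩ with hδ
  have e1 : ∀ s, (W M (f s) δ) ^ 2 = 1 := by
    intro s
    refine W_closure M (f s) (χ s).ker (fun y hy q => ?_) h2 hc z (hk s) hz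
    show ((X s (q * (y : P ⧸ M)) : ℤˣ) : ℤ) = ((X s q : ℤˣ) : ℤ)
    have h3 : X s (y : P ⧸ M) = 1 := hy
    rw [map_mul, h3, mul_one]
  have e2 : ∏ s, W M (f s) δ = δ ^ N0 := by
    simp only [W_apply]
    rw [Finset.prod_comm]
    have h4 : ∀ q : P ⧸ M, ∏ s, (BB M q δ) ^ (f s q) = (BB M q δ) ^ (∑ s, f s q) := fun q =>
      (zpow_sum' _ _ _).symm
    rw [Finset.prod_congr rfl fun q _ => h4 q, Finset.prod_eq_single (1 : P ⧸ M)]
    · have h5 : ∑ s, f s (1 : P ⧸ M) = (N0 : ℤ) := hs1 1 M.one_mem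
      rw [h5, map_one, zpow_natCast]
      rfl
    · intro q _ hq
      obtain ⟨x, rfl⟩ := QuotientGroup.mk_surjective q
      have h6 : x ∉ M := fun h7 => hq ((QuotientGroup.eq_one_iff x).2 h7)
      have h5 : ∑ s, f s (x : P ⧸ M) = 0 := hs0 x h6
      rw [h5, zpow_zero]
    · intro h7
      exact absurd (Finset.mem_univ _) h7
  have e3 : (δ ^ N0) ^ 2 = 1 := by
    rw [← e2, ← Finset.prod_pow]
    exact Finset.prod_eq_one fun s _ => e1 s
  rw [← pow_mul, hδ, ← map_pow] at e3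
  have e4 : (⟨z, hz⟩ : M) ^ (N0 * 2) ∈ commutator M := (QuotientGroup.eq_one_iff _).1 e3
  have e5 : z ^ (N0 * 2) ∈ (commutator M).map M.subtype := ⟨_, e4, rfl⟩
  rwa [Subgroup.map_subtype_commutator] at e5

end Pool.Agent.V8H63.M2
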